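import Pool.Agent.Helper92.Pol.Upper

set_option autoImplicit false
open Filter Topology Finset
open scoped ENNReal

namespace Pool.Agent.Helper92.Pol

theorem two_point {s a b : ℝ} (hs : 0 < s) (ha : 0 < a) (hb : 0 < b) :
    2 * ((a + b) / 2) ^ (-s) ≤ a ^ (-s) + b ^ (-s) := by
  have h1 := tangent hs ha (half_pos (add_pos ha hb))
  have h2 := tangent hs hb (half_pos (add_pos ha hb))
  nlinarith

/-- Packing count on the grid `h ℤ`. -/
theorem count {h a : ℝ} (ha : 0 < a) (hah : a ≤ h / 2) (I : Finset ℤ) (S : Set ℝ)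
    (hS : ∀ i ∈ I, Set.Ico ((i : ℝ) * h - a) (i * h + a) ⊆ S) :
    (I.card : ℝ≥0∞) * ENNReal.ofReal (2 * a) ≤ MeasureTheory.volume S := by
  have h1 : (⋃ i ∈ I, Set.Ico ((i : ℝ) * h - a) (i * h + a)) ⊆ S := Set.iUnion₂_subset hS
  refine le_trans ?_ (MeasureTheory.measure_mono h1)
  rw [MeasureTheory.measure_biUnion_finset]
  · rw [Finset.sum_congr rfl (fun i _ => by
      rw [Real.volume_Ico, show (i : ℝ) * h + a - (i * h - a) = 2 * a by ring])]
    simp
  · intro i _ j _ hij
    simp only [Function.onFun]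
    rw [Set.disjoint_left]
    rintro z ⟨h2, h3⟩ ⟨h4, h5⟩
    apply hij
    have h6 : ((i : ℝ) - j) * h < h := by nlinarith
    have h7 : ((j : ℝ) - i) * h < h := by nlinarith
    have hh : 0 < h := by linarith
    have h8 : (i : ℝ) - j < 1 := by
      by_contra hc
      push Not at hc
      nlinarith
    have h9 : (j : ℝ) - i < 1 := by
      by_contra hc
      push Not at hc
      nlinarith
    have h10 : i < j + 1 := by
      have : (i : ℝ) < j + 1 := by linarith
      exact_mod_cast this
    have h11 : j < i + 1 := by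
      have : (j : ℝ) < i + 1 := by linarith
      exact_mod_cast this
    omega
  · intro i _
    exact measurableSet_Ico

theorem pow_mono {s a b : ℝ} (hs : 0 < s) (hab : a ≤ b) :
    (ENNReal.ofReal b) ^ (-s) ≤ (ENNReal.ofReal a) ^ (-s) := by
  rw [ENNReal.rpow_neg, ENNReal.rpow_neg]
  apply ENNReal.inv_le_inv.2
  exact ENNReal.rpow_le_rpow (ENNReal.ofReal_le_ofReal hab) hs.le

noncomputable def Bc (s η : ℝ) (R : ℕ) : ℝ := ∑ k ∈ range R, 2 * ((k : ℝ) + 1 / 2 + η) ^ (-s)

theorem config {K : Set ℝ} (hsub : K ⊆ Set.Icc (0 : ℝ) 1) {s : ℝ} (hs : 0 < s)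
    {h η : ℝ} (hh : 0 < h) (hη : 0 < η) (hη' : η < 1 / 4) (R m : ℕ) (hm : 0 < m)
    (hB : Bc s η R ≤ (m : ℝ) ^ s) :
    ∃ T : Finset ℝ, (↑T : Set ℝ) ⊆ K ∧
      (∀ y ∈ K, ENNReal.ofReal (Bc s η R * h ^ (-s)) ≤ ∑ x ∈ T, (ENNReal.ofReal |y - x|) ^ (-s)) ∧
      ∃ a b : ℕ, T.card ≤ a + b * (2 * m * (R + 2) + 1) ∧
        (a : ℝ≥0∞) * ENNReal.ofReal h ≤ MeasureTheory.volume (Metric.cthickening h K) ∧
        (b : ℝ≥0∞) * ENNReal.ofReal (2 * (η * h)) ≤
          MeasureTheory.volume (Metric.cthickening ((R + 2) * h) K \ K) := by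
  classical
  set near : ℤ → ℝ → Prop := fun i r => ∃ x ∈ K, |x - i * h| ≤ r with hnear
  set J : Finset ℤ := Finset.Icc (-((R : ℤ) + 2)) (⌈1 / h⌉ + R + 2) with hJ
  have hJmem : ∀ i : ℤ, near i ((R + 1) * h) → i ∈ J := by
    rintro i ⟨x, hx, hxi⟩
    have hx0 := (hsub hx).1
    have hx1 := (hsub hx).2
    rw [abs_le] at hxi
    rw [hJ, Finset.mem_Icc]
    constructor
    · have : (-((R : ℝ) + 1)) * h ≤ i * h := by nlinarith
      have h2 : (-((R : ℝ) + 1)) ≤ i := le_of_mul_le_mul_right this hh
      have h3 : (-((R : ℤ) + 1)) ≤ i := by exact_mod_cast h2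
      omega
    · have h1 : (i : ℝ) * h ≤ 1 + (R + 1) * h := by nlinarith
      have h2 : (i : ℝ) ≤ 1 / h + (R + 1) := by
        rw [← mul_le_mul_iff_left₀ hh]
        have : (1 / h + ((R : ℝ) + 1)) * h = 1 + (R + 1) * h := by field_simp
        linarith
      have h3 := Int.le_ceil (1 / h)
      have h4 : (i : ℝ) ≤ (⌈1 / h⌉ : ℝ) + R + 2 := by linarith
      exact_mod_cast h4
  set Good : Finset ℤ := J.filter (fun i => near i (η * h)) with hGood
  set Bad : Finset ℤ := J.filter (fun i => ¬ near i (η * h) ∧ near i ((R + 1) * h)) with hBad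
  have hg : ∀ i ∈ Good, ∃ x ∈ K, |x - i * h| ≤ η * h := fun i hi => (mem_filter.1 hi).2
  choose! g hgK hgd using hg
  set w : ℝ := h / m with hw
  have hm' : (0 : ℝ) < m := by exact_mod_cast hm
  have hwpos : 0 < w := div_pos hh hm'
  have hmw : m * w = h := by rw [hw]; field_simp
  set cell : ℤ → Prop := fun l => ∃ x ∈ K, (l : ℝ) * w ≤ x ∧ x ≤ (l + 1) * w with hcell
  have hf : ∀ l, cell l → ∃ x ∈ K, (l : ℝ) * w ≤ x ∧ x ≤ (l + 1) * w := fun l hl => hl
  choose! f hfK hf1 hf2 using hf
  set W : ℤ → Finset ℤ := fun i => (Finset.Icc ((m : ℤ) * (i - R - 2)) (m * (i + R + 2))).filter cell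
    with hW
  set T1 : Finset ℝ := Good.image g with hT1
  set T2 : Finset ℝ := Bad.biUnion (fun i => (W i).image f) with hT2
  have hginj : ∀ i ∈ Good, ∀ j ∈ Good, g i = g j → i = j := by
    intro i hi j hj hij
    have h1 := abs_le.1 (hgd i hi)
    have h2 := abs_le.1 (hgd j hj)
    rw [hij] at h1
    have h3 : ((i : ℝ) - j) * h < 1 * h := by nlinarith
    have h4 : ((j : ℝ) - i) * h < 1 * h := by nlinarith
    have h5 := lt_of_mul_lt_mul_right h3 hh.le
    have h6 := lt_of_mul_lt_mul_right h4 hh.le
    have h7 : i < j + 1 := by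
      have : (i : ℝ) < j + 1 := by linarith
      exact_mod_cast this
    have h8 : j < i + 1 := by
      have : (j : ℝ) < i + 1 := by linarith
      exact_mod_cast this
    omega
  refine ⟨T1 ∪ T2, ?_, ?_, Good.card, Bad.card, ?_, ?_, ?_⟩
  · intro x hx
    rw [mem_coe, mem_union] at hx
    rcases hx with hx | hx
    · obtain ⟨i, hi, rfl⟩ := mem_image.1 hx
      exact hgK i hi
    · obtain ⟨i, hi, hx⟩ := mem_biUnion.1 hx
      obtain ⟨l, hl, rfl⟩ := mem_image.1 hx
      exact hfK l (mem_filter.1 hl).2
  · intro y hy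
    by_cases hcase : ∃ i ∈ Bad, |y - i * h| ≤ (R + 1) * h
    · obtain ⟨i, hi, hyi⟩ := hcase
      set l : ℤ := ⌊y / w⌋ with hl
      have hl1 : (l : ℝ) * w ≤ y := by
        have := Int.floor_le (y / w)
        rwa [le_div_iff₀ hwpos] at this
      have hl2 : y ≤ (l + 1) * w := by
        have := (Int.lt_floor_add_one (y / w)).le
        rwa [div_le_iff₀ hwpos] at this
      have hlc : cell l := ⟨y, hy, hl1, hl2⟩
      have hlW : l ∈ W i := by
        rw [hW]
        refine mem_filter.2 ⟨?_, hlc⟩
        rw [Finset.mem_Icc]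
        have h1 := abs_le.1 hyi
        have hwh : w ≤ h := by
          rw [← hmw]
          have : (1 : ℝ) ≤ m := by exact_mod_cast hm
          nlinarith
        constructor
        · have h2 : ((m : ℝ) * (i - R - 2)) * w ≤ l * w := by
            have e : ((m : ℝ) * (i - R - 2)) * w = (i - R - 2) * h := by rw [← hmw]; ring
            rw [e]
            nlinarith
          have h3 := le_of_mul_le_mul_right h2 hwpos
          exact_mod_cast h3
        · have h2 : (l : ℝ) * w ≤ ((m : ℝ) * (i + R + 2)) * w := by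
            have e : ((m : ℝ) * (i + R + 2)) * w = (i + R + 2) * h := by rw [← hmw]; ring
            rw [e]
            nlinarith
          have h3 := le_of_mul_le_mul_right h2 hwpos
          exact_mod_cast h3
      have hfT : f l ∈ T1 ∪ T2 := by
        rw [mem_union]; right
        rw [hT2, mem_biUnion]
        exact ⟨i, hi, mem_image_of_mem f hlW⟩
      calc ENNReal.ofReal (Bc s η R * h ^ (-s)) ≤ (ENNReal.ofReal w) ^ (-s) := by
            rw [ENNReal.ofReal_rpow_of_pos hwpos]
            apply ENNReal.ofReal_le_ofReal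
            have : w ^ (-s) = (m : ℝ) ^ s * h ^ (-s) := by
              rw [hw, Real.div_rpow hh.le hm'.le, Real.rpow_neg hm'.le s]
              field_simp
            rw [this]
            have := Real.rpow_nonneg hh.le (-s)
            gcongr
        _ ≤ (ENNReal.ofReal |y - f l|) ^ (-s) := by
            apply pow_mono hs
            rw [abs_le]
            have h1 := hf1 l hlc
            have h2 := hf2 l hlc
            constructor <;> nlinarith
        _ ≤ _ := Finset.single_le_sum (f := fun x => (ENNReal.ofReal |y - x|) ^ (-s))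
            (fun _ _ => zero_le) hfT
    · push Not at hcase
      set i0 : ℤ := ⌊y / h⌋ with hi0
      have hi1 : (i0 : ℝ) * h ≤ y := by
        have := Int.floor_le (y / h)
        rwa [le_div_iff₀ hh] at this
      have hi2 : y < (i0 + 1) * h := by
        have := (Int.lt_floor_add_one (y / h))
        rwa [div_lt_iff₀ hh] at this
      have hgood : ∀ i : ℤ, |y - i * h| ≤ (R + 1) * h → i ∈ Good := by
        intro i hi
        have hn : near i ((R + 1) * h) := ⟨y, hy, hi⟩
        have hiJ := hJmem i hn
        by_contra hng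
        have : ¬ near i (η * h) := fun hc => hng (mem_filter.2 ⟨hiJ, hc⟩)
        have hb : i ∈ Bad := mem_filter.2 ⟨hiJ, this, hn⟩
        have := hcase i hb
        linarith
      have hA : ∀ k ∈ range R, (i0 - (k : ℤ)) ∈ Good := by
        intro k hk
        apply hgood
        have hk' : (k : ℝ) + 1 ≤ R := by exact_mod_cast mem_range.1 hk
        have hk0 : (0 : ℝ) ≤ k := Nat.cast_nonneg k
        push_cast
        rw [abs_le]
        constructor <;> nlinarith
      have hB' : ∀ k ∈ range R, (i0 + 1 + (k : ℤ)) ∈ Good := by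
        intro k hk
        apply hgood
        have hk' : (k : ℝ) + 1 ≤ R := by exact_mod_cast mem_range.1 hk
        have hk0 : (0 : ℝ) ≤ k := Nat.cast_nonneg k
        push_cast
        rw [abs_le]
        constructor <;> nlinarith
      set A1 : Finset ℝ := (range R).image (fun k : ℕ => g (i0 - k)) with hA1
      set A2 : Finset ℝ := (range R).image (fun k : ℕ => g (i0 + 1 + k)) with hA2
      have hdisj : Disjoint A1 A2 := by
        rw [Finset.disjoint_left]
        intro z hz1 hz2
        obtain ⟨k, hk, rfl⟩ := mem_image.1 hz1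
        obtain ⟨k', hk', hkk⟩ := mem_image.1 hz2
        have := hginj _ (hB' k' hk') _ (hA k hk) hkk
        omega
      have hsubT : A1 ∪ A2 ⊆ T1 ∪ T2 := by
        intro z hz
        rw [mem_union] at hz ⊢
        left
        rcases hz with hz | hz
        · obtain ⟨k, hk, rfl⟩ := mem_image.1 hz
          exact mem_image_of_mem g (hA k hk)
        · obtain ⟨k, hk, rfl⟩ := mem_image.1 hz
          exact mem_image_of_mem g (hB' k hk)
      refine le_trans ?_ (Finset.sum_le_sum_of_subset hsubT)
      rw [Finset.sum_union hdisj]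
      rw [hA1, hA2, Finset.sum_image, Finset.sum_image, ← Finset.sum_add_distrib]
      · rw [Bc, Finset.sum_mul, ENNReal.ofReal_sum_of_nonneg]
        · apply Finset.sum_le_sum
          intro k hk
          have hk0 : (0 : ℝ) ≤ k := Nat.cast_nonneg k
          have g1 := abs_le.1 (hgd _ (hA k hk))
          have g2 := abs_le.1 (hgd _ (hB' k hk))
          push_cast at g1 g2
          set t : ℝ := y - i0 * h with ht
          have ht0 : 0 ≤ t := by linarith
          have ht1 : t < h := by linarith
          have hηh : 0 < η * h := mul_pos hη hh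
          have hkh : 0 ≤ (k : ℝ) * h := mul_nonneg hk0 hh.le
          have p1 : 0 < t + k * h + η * h := by linarith
          have p2 : 0 < (h - t) + k * h + η * h := by linarith
          calc ENNReal.ofReal (2 * ((k : ℝ) + 1 / 2 + η) ^ (-s) * h ^ (-s))
              ≤ ENNReal.ofReal ((t + k * h + η * h) ^ (-s) + ((h - t) + k * h + η * h) ^ (-s)) := by
                apply ENNReal.ofReal_le_ofReal
                have := two_point hs p1 p2
                have e : (t + k * h + η * h + ((h - t) + k * h + η * h)) / 2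
                    = ((k : ℝ) + 1 / 2 + η) * h := by ring
                rw [e, Real.mul_rpow (by positivity) hh.le] at this
                linarith
            _ = (ENNReal.ofReal (t + k * h + η * h)) ^ (-s) +
                (ENNReal.ofReal ((h - t) + k * h + η * h)) ^ (-s) := by
                rw [ENNReal.ofReal_add (Real.rpow_nonneg p1.le _) (Real.rpow_nonneg p2.le _),
                  ENNReal.ofReal_rpow_of_pos p1, ENNReal.ofReal_rpow_of_pos p2]
            _ ≤ _ := by
                apply add_le_add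
                · apply pow_mono hs
                  rw [abs_le]
                  constructor <;> linarith [g1.1, g1.2]
                · apply pow_mono hs
                  rw [abs_le]
                  constructor <;> linarith [g2.1, g2.2]
        · intro k _
          have hk0 : (0 : ℝ) ≤ k := Nat.cast_nonneg k
          have : 0 < (k : ℝ) + 1 / 2 + η := by positivity
          have := Real.rpow_nonneg this.le (-s)
          have := Real.rpow_nonneg hh.le (-s)
          positivity
      · intro k hk k' hk' hkk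
        have := hginj _ (hB' k hk) _ (hB' k' hk') hkk
        omega
      · intro k hk k' hk' hkk
        have := hginj _ (hA k hk) _ (hA k' hk') hkk
        omega
  · refine (card_union_le _ _).trans ?_
    apply add_le_add card_image_le
    rw [hT2]
    refine card_biUnion_le.trans ?_
    rw [← smul_eq_mul, ← Finset.sum_const]
    apply Finset.sum_le_sum
    intro i _
    refine card_image_le.trans ?_
    rw [hW]
    refine (card_filter_le _ _).trans ?_
    rw [Int.card_Icc]
    have : (m : ℤ) * (i + R + 2) + 1 - m * (i - R - 2) = 2 * m * (R + 2) + 1 := by ring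
    rw [this]
    have h2 : (2 * (m : ℤ) * (R + 2) + 1) = ((2 * m * (R + 2) + 1 : ℕ) : ℤ) := by push_cast; ring
    rw [h2, Int.toNat_natCast]
  · have := count (h := h) (a := h / 2) (by linarith) le_rfl Good (Metric.cthickening h K) ?_
    · rwa [show 2 * (h / 2) = h by ring] at this
    · intro i hi z hz
      apply Metric.mem_cthickening_of_dist_le z (g i) h K (hgK i hi)
      rw [Real.dist_eq, abs_le]
      have g1 := abs_le.1 (hgd i hi)
      obtain ⟨h1, h2⟩ := hz
      constructor <;> nlinarith
  · apply count (h := h) (a := η * h) (by positivity) (by nlinarith) Bad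
    intro i hi z hz
    obtain ⟨_, hn1, x, hx, hxi⟩ := mem_filter.1 hi
    obtain ⟨h1, h2⟩ := hz
    constructor
    · apply Metric.mem_cthickening_of_dist_le z x _ K hx
      rw [Real.dist_eq, abs_le]
      have g1 := abs_le.1 hxi
      constructor <;> nlinarith
    · intro hzK
      apply hn1
      refine ⟨z, hzK, ?_⟩
      rw [abs_le]
      constructor <;> linarith

/-- From a finite set of at most `N` points to an `N`-tuple. -/
theorem tuple {K : Set ℝ} (hne : K.Nonempty) (T : Finset ℝ) (hT : (↑T : Set ℝ) ⊆ K) (N : ℕ)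
    (hN : T.card ≤ N) :
    ∃ x : Fin N → ℝ, (∀ i, x i ∈ K) ∧ ∀ F : ℝ → ℝ≥0∞, ∑ z ∈ T, F z ≤ ∑ j, F (x j) := by
  classical
  obtain ⟨k0, hk0⟩ := hne
  have hcard : Fintype.card T ≤ Fintype.card (Fin N) := by simpa using hN
  obtain ⟨e⟩ := Function.Embedding.nonempty_of_card_le hcard
  refine ⟨Function.extend e (fun t => (t : ℝ)) (fun _ => k0), ?_, ?_⟩
  · intro i
    by_cases h : ∃ t, e t = i
    · obtain ⟨t, rfl⟩ := h
      rw [e.injective.extend_apply]
      exact hT t.2
    · rw [Function.extend_apply' _ _ _ h]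
      exact hk0
  · intro F
    rw [← Finset.sum_coe_sort T]
    calc ∑ t : T, F t = ∑ t : T, F (Function.extend e (fun t => (t : ℝ)) (fun _ => k0) (e t)) := by
          apply sum_congr rfl
          intro t _
          rw [e.injective.extend_apply]
      _ = ∑ j ∈ univ.map e, F (Function.extend e (fun t => (t : ℝ)) (fun _ => k0) j) := by
          rw [Finset.sum_map]
      _ ≤ _ := Finset.sum_le_sum_of_subset (Finset.subset_univ _)

theorem lower {K : Set ℝ} (hK : IsCompact K) (hne : K.Nonempty) (hsub : K ⊆ Set.Icc (0 : ℝ) 1)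
    (hvol : 0 < MeasureTheory.volume K) {s : ℝ} (hs : 0 < s)
    {η : ℝ} (hη : 0 < η) (hη' : η < 1 / 4) (R : ℕ) :
    ∀ᶠ N : ℕ in atTop, ∃ x : Fin N → ℝ, (∀ i, x i ∈ K) ∧ ∀ y ∈ K,
      ENNReal.ofReal (Bc s η R * (((MeasureTheory.volume K).toReal + η) / N) ^ (-s)) ≤
        ∑ j, (ENNReal.ofReal |y - x j|) ^ (-s) := by
  have hfin : MeasureTheory.volume K ≠ ⊤ := hK.measure_lt_top.ne
  set Λ : ℝ := (MeasureTheory.volume K).toReal with hΛd
  have hΛ : 0 < Λ := ENNReal.toReal_pos hvol.ne' hfin
  obtain ⟨m, hm0, hm⟩ : ∃ m : ℕ, 0 < m ∧ Bc s η R ≤ (m : ℝ) ^ s := by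
    have h1 := (tendsto_rpow_atTop hs).comp tendsto_natCast_atTop_atTop
    obtain ⟨m, hm1, hm2⟩ := ((h1.eventually_ge_atTop (Bc s η R)).and (eventually_gt_atTop 0)).exists
    exact ⟨m, hm2, hm1⟩
  have hct := tendsto_measure_cthickening_of_isCompact (μ := MeasureTheory.volume) hK
  have hh0 : Tendsto (fun N : ℕ => (Λ + η) / (N : ℝ)) atTop (𝓝 0) :=
    tendsto_const_div_atTop_nhds_zero_nat _
  have hh1 : Tendsto (fun N : ℕ => ((R : ℝ) + 2) * ((Λ + η) / (N : ℝ))) atTop (𝓝 0) := by
    simpa using hh0.const_mul ((R : ℝ) + 2)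
  have ht1 := hct.comp hh0
  have ht2 := hct.comp hh1
  -- constants
  set C : ℝ := (2 * m * (R + 2) + 1) / (2 * η) with hC
  have hCpos : 0 < C := by positivity
  set ε : ℝ := η / (2 * (1 + C)) with hε
  have hεpos : 0 < ε := by positivity
  have hlt : MeasureTheory.volume K < MeasureTheory.volume K + ENNReal.ofReal ε :=
    ENNReal.lt_add_right hfin (by simpa using hεpos)
  filter_upwards [ht1.eventually (gt_mem_nhds hlt), ht2.eventually (gt_mem_nhds hlt),
    eventually_gt_atTop 0] with N hN1 hN2 hNpos
  have hNpos' : (0 : ℝ) < N := by exact_mod_cast hNpos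
  set h : ℝ := (Λ + η) / N with hh
  have hhpos : 0 < h := by positivity
  simp only [Function.comp] at hN1 hN2
  obtain ⟨T, hTK, hTy, a, b, hcard, ha, hb⟩ := config hsub hs hhpos hη hη' R m hm0 hm
  have hTN : T.card ≤ N := by
    have ha' : (a : ℝ) * h ≤ Λ + ε := by
      have h1 : (a : ℝ≥0∞) * ENNReal.ofReal h ≤ MeasureTheory.volume K + ENNReal.ofReal ε :=
        ha.trans hN1.le
      have h2 := ENNReal.toReal_mono (ENNReal.add_ne_top.2 ⟨hfin, ENNReal.ofReal_ne_top⟩) h1
      rw [ENNReal.toReal_add hfin ENNReal.ofReal_ne_top, ENNReal.toReal_mul,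
        ENNReal.toReal_ofReal hhpos.le, ENNReal.toReal_ofReal hεpos.le] at h2
      simpa using h2
    have hb' : (b : ℝ) * (2 * (η * h)) ≤ ε := by
      have h1 : MeasureTheory.volume (Metric.cthickening ((R + 2) * h) K \ K) ≤ ENNReal.ofReal ε := by
        rw [MeasureTheory.measure_sdiff (Metric.self_subset_cthickening K)
          hK.isClosed.measurableSet.nullMeasurableSet hfin]
        rw [tsub_le_iff_left]
        exact hN2.le
      have h2 := ENNReal.toReal_mono ENNReal.ofReal_ne_top (hb.trans h1)
      rw [ENNReal.toReal_mul, ENNReal.toReal_ofReal (by positivity),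
        ENNReal.toReal_ofReal hεpos.le] at h2
      simpa using h2
    have hc : (T.card : ℝ) ≤ a + b * (2 * m * (R + 2) + 1) := by exact_mod_cast hcard
    have h3 : (T.card : ℝ) * h ≤ Λ + η := by
      have h4 : (b : ℝ) * (2 * m * (R + 2) + 1) * h = b * (2 * (η * h)) * C := by
        rw [hC]; field_simp
      have h5 : (T.card : ℝ) * h ≤ (Λ + ε) + ε * C := by
        calc (T.card : ℝ) * h ≤ (a + b * (2 * m * (R + 2) + 1)) * h := by gcongr
          _ = a * h + b * (2 * (η * h)) * C := by rw [← h4]; ring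
          _ ≤ (Λ + ε) + ε * C := by gcongr
      have h6 : ε + ε * C = η / 2 := by rw [hε]; field_simp
      linarith
    have h7 : (T.card : ℝ) ≤ N := by
      have h8 : (N : ℝ) * h = Λ + η := by rw [hh]; field_simp
      rw [← h8] at h3
      exact le_of_mul_le_mul_right h3 hhpos
    exact_mod_cast h7
  obtain ⟨x, hxK, hx⟩ := tuple hne T hTK N hTN
  exact ⟨x, hxK, fun y hy => (hTy y hy).trans (hx _)⟩

end Pool.Agent.Helper92.Pol
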