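import Pool.Agent.Helper92.Pol.Lower

set_option autoImplicit false
open Filter Topology Finset
open scoped ENNReal

namespace Pool.Agent.Helper92.Pol

theorem half_ne (j : ℤ) : (j : ℝ) + 1 / 2 ≠ 0 := by
  intro h
  have h1 : ((2 * j + 1 : ℤ) : ℝ) = 0 := by push_cast; linarith
  have h2 : (2 * j + 1 : ℤ) = 0 := by exact_mod_cast h1
  omega

theorem cs_scale {s Λ : ℝ} (hs : 0 < s) (hΛ : 0 < Λ) (N : ℕ) (hN : 0 < N) :
    cs s (Λ / N) = cs s Λ * (N : ℝ≥0∞) ^ s := by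
  have hN' : (0 : ℝ) < N := by exact_mod_cast hN
  unfold cs
  rw [← ENNReal.tsum_mul_right]
  apply tsum_congr
  intro j
  have h1 : 0 < |((j : ℝ) + 1 / 2) * (Λ / N)| := abs_pos.2 (mul_ne_zero (half_ne j) (by positivity))
  have h2 : 0 < |((j : ℝ) + 1 / 2) * Λ| := abs_pos.2 (mul_ne_zero (half_ne j) hΛ.ne')
  rw [ENNReal.ofReal_rpow_of_pos h1, ENNReal.ofReal_rpow_of_pos h2, ← ENNReal.ofReal_natCast,
    ENNReal.ofReal_rpow_of_pos hN', ← ENNReal.ofReal_mul (Real.rpow_nonneg h2.le _)]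
  congr 1
  have e : |((j : ℝ) + 1 / 2) * (Λ / N)| = |((j : ℝ) + 1 / 2) * Λ| / N := by
    rw [← mul_div_assoc, abs_div, abs_of_pos hN']
  rw [e, Real.div_rpow h2.le hN'.le, Real.rpow_neg hN'.le]
  field_simp

theorem cs_nat {s Λ : ℝ} (hΛ : 0 < Λ) :
    cs s Λ = 2 * ∑' k : ℕ, ENNReal.ofReal ((((k : ℝ) + 1 / 2) * Λ) ^ (-s)) := by
  unfold cs
  rw [tsum_of_nat_of_neg_add_one ENNReal.summable ENNReal.summable, two_mul]
  congr 1
  · apply tsum_congr
    intro k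
    have : 0 < ((k : ℝ) + 1 / 2) * Λ := by positivity
    push_cast
    rw [abs_of_pos this, ENNReal.ofReal_rpow_of_pos this]
  · apply tsum_congr
    intro k
    have : 0 < ((k : ℝ) + 1 / 2) * Λ := by positivity
    push_cast
    rw [show (-((k : ℝ) + 1) + 1 / 2) * Λ = -(((k : ℝ) + 1 / 2) * Λ) by ring, abs_neg,
      abs_of_pos this, ENNReal.ofReal_rpow_of_pos this]

theorem odd_sum {s : ℝ} (hs : 1 < s) :
    HasSum (fun k : ℕ => ((k : ℝ) + 1 / 2) ^ (-s))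
      (((2 : ℝ) ^ s - 1) * ∑' n : ℕ, 1 / (n : ℝ) ^ s) := by
  set f : ℕ → ℝ := fun n => 1 / (n : ℝ) ^ s with hf
  have hsum : Summable f := Real.summable_one_div_nat_rpow.2 hs
  have h2 : (0 : ℝ) < (2 : ℝ) ^ s := Real.rpow_pos_of_pos (by norm_num) s
  have heven : ∀ k : ℕ, f (2 * k) = ((2 : ℝ) ^ s)⁻¹ * f k := by
    intro k
    simp only [hf]
    push_cast
    rw [Real.mul_rpow (by norm_num) (Nat.cast_nonneg k)]
    rw [one_div, mul_inv, one_div]
  have hodd : ∀ k : ℕ, f (2 * k + 1) = ((2 : ℝ) ^ s)⁻¹ * ((k : ℝ) + 1 / 2) ^ (-s) := by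
    intro k
    simp only [hf]
    have hk : (0 : ℝ) < (k : ℝ) + 1 / 2 := by positivity
    rw [Real.rpow_neg hk.le, show ((2 * k + 1 : ℕ) : ℝ) = 2 * ((k : ℝ) + 1 / 2) by push_cast; ring,
      Real.mul_rpow (by norm_num) hk.le, one_div, mul_inv]
  have hs1 : Summable (fun k : ℕ => f (2 * k)) :=
    hsum.comp_injective (fun a b h => by simpa using h)
  have hs2 : Summable (fun k : ℕ => f (2 * k + 1)) :=
    hsum.comp_injective (i := fun k : ℕ => 2 * k + 1) (fun a b h => by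
      have h' : 2 * a + 1 = 2 * b + 1 := h
      omega)
  have h3 := tsum_even_add_odd hs1 hs2
  have hs3 : Summable (fun k : ℕ => ((k : ℝ) + 1 / 2) ^ (-s)) := by
    have := hs2.mul_left ((2 : ℝ) ^ s)
    refine this.congr ?_
    intro k
    rw [hodd, ← mul_assoc, mul_inv_cancel₀ h2.ne', one_mul]
  rw [tsum_congr heven, tsum_congr hodd, tsum_mul_left, tsum_mul_left] at h3
  have h4 : ∑' k : ℕ, ((k : ℝ) + 1 / 2) ^ (-s) = ((2 : ℝ) ^ s - 1) * ∑' n : ℕ, f n := by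
    have h5 : (2 : ℝ) ^ s * (((2 : ℝ) ^ s)⁻¹ * ∑' n : ℕ, f n +
        ((2 : ℝ) ^ s)⁻¹ * ∑' k : ℕ, ((k : ℝ) + 1 / 2) ^ (-s)) = (2 : ℝ) ^ s * ∑' n : ℕ, f n := by
      rw [h3]
    rw [mul_add, ← mul_assoc, ← mul_assoc, mul_inv_cancel₀ h2.ne', one_mul, one_mul] at h5
    linarith
  rw [← h4]
  exact hs3.hasSum

theorem cs_eq {s Λ : ℝ} (hs : 1 < s) (hΛ : 0 < Λ) :
    cs s Λ = ENNReal.ofReal (2 * (2 ^ s - 1) * (∑' n : ℕ, 1 / (n : ℝ) ^ s) * Λ ^ (-s)) := by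
  rw [cs_nat hΛ]
  have h1 : ∀ k : ℕ, (((k : ℝ) + 1 / 2) * Λ) ^ (-s) = ((k : ℝ) + 1 / 2) ^ (-s) * Λ ^ (-s) := by
    intro k
    rw [Real.mul_rpow (by positivity) hΛ.le]
  simp_rw [h1]
  have h2 := (odd_sum hs).mul_right (Λ ^ (-s))
  rw [← ENNReal.ofReal_tsum_of_nonneg _ h2.summable, h2.tsum_eq]
  · rw [show (2 : ℝ≥0∞) = ENNReal.ofReal 2 by simp, ← ENNReal.ofReal_mul (by norm_num)]
    congr 1
    ring
  · intro k
    have : (0 : ℝ) < (k : ℝ) + 1 / 2 := by positivity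
    exact mul_nonneg (Real.rpow_nonneg this.le _) (Real.rpow_nonneg hΛ.le _)

/-- Choosing the parameters of the lower bound. -/
theorem params {s Λ : ℝ} (hΛ : 0 < Λ) {A : ℝ≥0∞} (hA : A < cs s Λ) :
    ∃ (η : ℝ) (R : ℕ), 0 < η ∧ η < 1 / 4 ∧ A < ENNReal.ofReal (Bc s η R * (Λ + η) ^ (-s)) := by
  have h1 : Tendsto (fun R : ℕ => 2 * ∑ k ∈ range R, ENNReal.ofReal ((((k : ℝ) + 1 / 2) * Λ) ^ (-s)))
      atTop (𝓝 (cs s Λ)) := by
    rw [cs_nat hΛ]
    apply ENNReal.Tendsto.const_mul _ (Or.inr (by simp))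
    exact ENNReal.tendsto_nat_tsum _
  obtain ⟨R, hR⟩ := (h1.eventually (lt_mem_nhds hA)).exists
  have h2 : 2 * ∑ k ∈ range R, ENNReal.ofReal ((((k : ℝ) + 1 / 2) * Λ) ^ (-s)) =
      ENNReal.ofReal (Bc s 0 R * (Λ + 0) ^ (-s)) := by
    rw [← ENNReal.ofReal_sum_of_nonneg (fun k _ => Real.rpow_nonneg (by positivity) _),
      show (2 : ℝ≥0∞) = ENNReal.ofReal 2 by simp, ← ENNReal.ofReal_mul (by norm_num)]
    congr 1
    unfold Bc
    rw [Finset.sum_mul, Finset.mul_sum]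
    apply sum_congr rfl
    intro k _
    rw [add_zero, add_zero, Real.mul_rpow (by positivity) hΛ.le]
    ring
  rw [h2] at hR
  have hcont : ContinuousAt (fun η : ℝ => ENNReal.ofReal (Bc s η R * (Λ + η) ^ (-s))) 0 := by
    apply ENNReal.continuous_ofReal.continuousAt.comp
    apply ContinuousAt.mul
    · unfold Bc
      apply tendsto_finsetSum
      intro k _
      apply Filter.Tendsto.const_mul
      apply ContinuousAt.rpow_const
      · fun_prop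
      · left
        have : (0 : ℝ) < (k : ℝ) + 1 / 2 + 0 := by positivity
        exact this.ne'
    · apply ContinuousAt.rpow_const
      · fun_prop
      · left
        simpa using hΛ.ne'
  have h3 := hcont.eventually (lt_mem_nhds hR)
  have h4 : ∀ᶠ η in 𝓝[>] (0 : ℝ), 0 < η ∧ η < 1 / 4 :=
    Ioo_mem_nhdsGT (by norm_num)
  obtain ⟨η, h5, h6⟩ := ((h3.filter_mono nhdsWithin_le_nhds).and h4).exists
  exact ⟨η, R, h6.1, h6.2, h5⟩

/-- The asymptotics of the polarization constants of a compact set of positive measure. -/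
theorem main {K : Set ℝ} (hK : IsCompact K) (hne : K.Nonempty) (hsub : K ⊆ Set.Icc (0 : ℝ) 1)
    (hvol : 0 < MeasureTheory.volume K) {s : ℝ} (hs : 1 < s) :
    Tendsto
      (fun N : ℕ =>
        (⨆ (x : Fin N → ℝ) (_ : ∀ i, x i ∈ K),
            ⨅ y ∈ K, ∑ j, (ENNReal.ofReal |y - x j|) ^ (-s)) /
          ((N : ℝ≥0∞) ^ s))
      atTop (𝓝 (cs s (MeasureTheory.volume K).toReal)) := by
  have hs0 : 0 < s := by linarith
  have hfin : MeasureTheory.volume K ≠ ⊤ := hK.measure_lt_top.ne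
  set Λ : ℝ := (MeasureTheory.volume K).toReal with hΛd
  have hΛ : 0 < Λ := ENNReal.toReal_pos hvol.ne' hfin
  have hNs : ∀ N : ℕ, 0 < N → (N : ℝ≥0∞) ^ s ≠ 0 ∧ (N : ℝ≥0∞) ^ s ≠ ⊤ := by
    intro N hN
    constructor
    · rw [Ne, ENNReal.rpow_eq_zero_iff]
      push Not
      refine ⟨fun h => absurd h (by simpa using hN.ne'), fun h => absurd h (by simp)⟩
    · exact ENNReal.rpow_ne_top_of_nonneg hs0.le (by simp)
  rw [tendsto_order]
  constructor
  · intro A hA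
    obtain ⟨η, R, hη, hη', hAη⟩ := params hΛ hA
    filter_upwards [lower hK hne hsub hvol hs0 hη hη' R, eventually_gt_atTop 0] with N hN hN0
    obtain ⟨x, hxK, hx⟩ := hN
    have hN' : (0 : ℝ) < N := by exact_mod_cast hN0
    refine lt_of_lt_of_le hAη ?_
    rw [ENNReal.le_div_iff_mul_le (Or.inl (hNs N hN0).1) (Or.inl (hNs N hN0).2)]
    have h1 : ENNReal.ofReal (Bc s η R * (Λ + η) ^ (-s)) * (N : ℝ≥0∞) ^ s =
        ENNReal.ofReal (Bc s η R * ((Λ + η) / N) ^ (-s)) := by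
      rw [← ENNReal.ofReal_natCast, ENNReal.ofReal_rpow_of_pos hN',
        ← ENNReal.ofReal_mul' (Real.rpow_nonneg hN'.le _)]
      congr 1
      rw [Real.div_rpow (by positivity) hN'.le, Real.rpow_neg hN'.le]
      field_simp
    rw [h1]
    refine le_trans ?_ (le_iSup₂ (f := fun (x : Fin N → ℝ) (_ : ∀ i, x i ∈ K) =>
      ⨅ y ∈ K, ∑ j, (ENNReal.ofReal |y - x j|) ^ (-s)) x hxK)
    exact le_iInf₂ fun y hy => hx y hy
  · intro B hB
    filter_upwards [eventually_gt_atTop 0] with N hN0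
    refine lt_of_le_of_lt ?_ hB
    rw [ENNReal.div_le_iff (hNs N hN0).1 (hNs N hN0).2, ← cs_scale hs0 hΛ N hN0]
    apply iSup₂_le
    intro x _
    obtain ⟨y, hy, hyx⟩ := upper hK hne hsub hvol hs0 N hN0 x
    exact (iInf₂_le y hy).trans hyx

end Pool.Agent.Helper92.Pol
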