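import Mathlib

set_option autoImplicit false
open Filter Topology Finset
open scoped ENNReal

namespace Pool.Agent.Helper92.Pol

/-- Tangent line inequality for `x ^ (-s)`. -/
theorem tangent {s a b : ℝ} (hs : 0 < s) (ha : 0 < a) (hb : 0 < b) :
    b ^ (-s) - s * b ^ (-s - 1) * (a - b) ≤ a ^ (-s) := by
  have hx : 0 < a / b := div_pos ha hb
  have h1 : 1 - s * (a / b - 1) ≤ (a / b) ^ (-s) := by
    rw [Real.rpow_def_of_pos hx]
    have h2 := Real.add_one_le_exp (Real.log (a / b) * -s)
    have h3 := Real.log_le_sub_one_of_pos hx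
    nlinarith
  have h4 : a ^ (-s) = b ^ (-s) * (a / b) ^ (-s) := by
    rw [Real.div_rpow ha.le hb.le]
    have : b ^ (-s) ≠ 0 := (Real.rpow_pos_of_pos hb _).ne'
    field_simp
  have h5 : b ^ (-s) = b * b ^ (-s - 1) := by
    rw [Real.rpow_sub_one hb.ne']
    field_simp
  have h6 : 0 < b ^ (-s) := Real.rpow_pos_of_pos hb _
  rw [h4]
  calc b ^ (-s) - s * b ^ (-s - 1) * (a - b) = b ^ (-s) * (1 - s * (a / b - 1)) := by
        rw [h5]; field_simp
    _ ≤ b ^ (-s) * (a / b) ^ (-s) := by gcongr

/-- Abel summation: antitone weights, nonnegative partial sums. -/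
theorem abel (c E : ℕ → ℝ) (N : ℕ) (hc : ∀ i, i + 1 < N → c (i + 1) ≤ c i)
    (hE : ∀ m, m ≤ N → 0 ≤ ∑ i ∈ range m, E i) (hN : ∑ i ∈ range N, E i = 0) :
    0 ≤ ∑ i ∈ range N, c i * E i := by
  rcases Nat.eq_zero_or_pos N with rfl | hpos
  · simp
  have key : ∀ m, m + 1 ≤ N → c m * ∑ i ∈ range (m + 1), E i ≤ ∑ i ∈ range (m + 1), c i * E i := by
    intro m
    induction m with
    | zero => intro _; simp
    | succ m ih =>
      intro hm
      rw [sum_range_succ, sum_range_succ (fun i => c i * E i)]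
      have h1 := ih (by omega)
      have h2 := hc m (by omega)
      have h3 := hE (m + 1) (by omega)
      nlinarith
  obtain ⟨M, rfl⟩ : ∃ M, N = M + 1 := ⟨N - 1, by omega⟩
  have := key M le_rfl
  rw [hN] at this
  simpa using this

/-- Karamata's inequality for the translated kernels `|t + m Λ| ^ (-s)` on `(0, Λ)`. -/
theorem karamata {s Λ : ℝ} (hs : 0 < s) (N : ℕ) (D D' : ℕ → ℝ)
    (hD : ∀ i, i < N → 0 < D i ∧ D i < Λ) (hD' : ∀ i, i < N → 0 < D' i ∧ D' i < Λ)
    (hanti : ∀ i, i + 1 < N → D (i + 1) ≤ D i)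
    (hE : ∀ m, m ≤ N → 0 ≤ ∑ i ∈ range m, (D' i - D i))
    (hN : ∑ i ∈ range N, (D' i - D i) = 0) (m : ℤ) :
    ∑ i ∈ range N, |D i + m * Λ| ^ (-s) ≤ ∑ i ∈ range N, |D' i + m * Λ| ^ (-s) := by
  rcases le_or_gt 0 m with hm | hm
  · have hm' : (0 : ℝ) ≤ m := by exact_mod_cast hm
    have hΛ : ∀ i, i < N → 0 < Λ := fun i hi => (hD i hi).1.trans (hD i hi).2
    have pos : ∀ i, i < N → 0 < D i + m * Λ := fun i hi => by
      have := mul_nonneg hm' (hΛ i hi).le; linarith [(hD i hi).1]
    have pos' : ∀ i, i < N → 0 < D' i + m * Λ := fun i hi => by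
      have := mul_nonneg hm' (hΛ i hi).le; linarith [(hD' i hi).1]
    have h1 := abel (fun i => - (s * (D i + m * Λ) ^ (-s - 1))) (fun i => D' i - D i) N ?_ hE hN
    · have h2 : ∀ i ∈ range N, |D i + m * Λ| ^ (-s) +
          (- (s * (D i + m * Λ) ^ (-s - 1))) * (D' i - D i) ≤ |D' i + m * Λ| ^ (-s) := by
        intro i hi
        have hi' := mem_range.1 hi
        rw [abs_of_pos (pos i hi'), abs_of_pos (pos' i hi')]
        have := tangent hs (pos' i hi') (pos i hi')
        have e : D' i + m * Λ - (D i + m * Λ) = D' i - D i := by ring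
        rw [e] at this
        linarith
      have h3 := sum_le_sum h2
      rw [sum_add_distrib] at h3
      linarith
    · intro i hi
      have a1 := pos i (by omega)
      have a2 := pos (i + 1) hi
      have a3 := hanti i hi
      have : (D i + m * Λ) ^ (-s - 1) ≤ (D (i + 1) + m * Λ) ^ (-s - 1) :=
        Real.rpow_le_rpow_of_nonpos a2 (by linarith) (by linarith)
      nlinarith
  · have hm' : (m : ℝ) ≤ -1 := by exact_mod_cast (by omega : m ≤ -1)
    have hΛ : ∀ i, i < N → 0 < Λ := fun i hi => (hD i hi).1.trans (hD i hi).2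
    have neg : ∀ i, i < N → D i + m * Λ < 0 := fun i hi => by
      have := mul_le_mul_of_nonneg_right hm' (hΛ i hi).le; linarith [(hD i hi).2]
    have neg' : ∀ i, i < N → D' i + m * Λ < 0 := fun i hi => by
      have := mul_le_mul_of_nonneg_right hm' (hΛ i hi).le; linarith [(hD' i hi).2]
    have h1 := abel (fun i => s * (-(D i + m * Λ)) ^ (-s - 1)) (fun i => D' i - D i) N ?_ hE hN
    · have h2 : ∀ i ∈ range N, |D i + m * Λ| ^ (-s) +
          (s * (-(D i + m * Λ)) ^ (-s - 1)) * (D' i - D i) ≤ |D' i + m * Λ| ^ (-s) := by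
        intro i hi
        have hi' := mem_range.1 hi
        rw [abs_of_neg (neg i hi'), abs_of_neg (neg' i hi')]
        have := tangent hs (neg_pos.2 (neg' i hi')) (neg_pos.2 (neg i hi'))
        have e : -(D' i + m * Λ) - -(D i + m * Λ) = -(D' i - D i) := by ring
        rw [e] at this
        linarith
      have h3 := sum_le_sum h2
      rw [sum_add_distrib] at h3
      linarith
    · intro i hi
      have a1 := neg i (by omega)
      have a2 := neg (i + 1) hi
      have a3 := hanti i hi
      have : (-(D (i + 1) + m * Λ)) ^ (-s - 1) ≤ (-(D i + m * Λ)) ^ (-s - 1) :=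
        Real.rpow_le_rpow_of_nonpos (by linarith) (by linarith) (by linarith)
      nlinarith

/-- Sum over a full period does not depend on the starting point. -/
theorem sum_period {M : Type*} [AddCommMonoid M] (a : ℕ → M) (N : ℕ)
    (ha : ∀ i, a (i + N) = a i) (k : ℕ) :
    ∑ i ∈ range N, a (k + i) = ∑ i ∈ range N, a i := by
  induction k with
  | zero => simp
  | succ k ih =>
    rw [← ih]
    rcases Nat.eq_zero_or_pos N with rfl | hpos
    · simp
    obtain ⟨M', rfl⟩ : ∃ M', N = M' + 1 := ⟨N - 1, by omega⟩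
    rw [sum_range_succ, sum_range_succ' (fun i => a (k + i))]
    have e1 : a (k + 1 + M') = a (k + 0) := by
      rw [show k + 1 + M' = k + (M' + 1) by ring, ha]; simp
    rw [e1]
    congr 1
    apply sum_congr rfl
    intro i _
    congr 1; ring

/-- The circle sum with equally spaced points. -/
noncomputable def cs (s h : ℝ) : ℝ≥0∞ := ∑' j : ℤ, (ENNReal.ofReal |((j : ℝ) + 1 / 2) * h|) ^ (-s)

noncomputable def per (s Λ z : ℝ) : ℝ≥0∞ := ∑' m : ℤ, (ENNReal.ofReal |z + m * Λ|) ^ (-s)

theorem per_add (s Λ z : ℝ) (q : ℤ) : per s Λ (z + q * Λ) = per s Λ z := by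
  unfold per
  rw [← Equiv.tsum_eq (Equiv.addRight q) (fun m : ℤ => (ENNReal.ofReal |z + m * Λ|) ^ (-s))]
  apply tsum_congr
  intro m
  congr 3
  simp only [Equiv.coe_addRight, Int.cast_add]
  ring

theorem le_per (s Λ z : ℝ) : (ENNReal.ofReal |z|) ^ (-s) ≤ per s Λ z := by
  unfold per
  have := ENNReal.le_tsum (f := fun m : ℤ => (ENNReal.ofReal |z + m * Λ|) ^ (-s)) 0
  simpa using this

theorem conv_sum {s : ℝ} (N : ℕ) (a : ℕ → ℝ) (ha : ∀ i, i < N → a i ≠ 0) :
    ∑ i ∈ range N, (ENNReal.ofReal |a i|) ^ (-s) = ENNReal.ofReal (∑ i ∈ range N, |a i| ^ (-s)) := by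
  rw [ENNReal.ofReal_sum_of_nonneg (fun i _ => Real.rpow_nonneg (abs_nonneg _) _)]
  apply sum_congr rfl
  intro i hi
  rw [ENNReal.ofReal_rpow_of_pos (abs_pos.2 (ha i (mem_range.1 hi)))]

theorem circle {s Λ : ℝ} (hs : 0 < s) (hΛ : 0 < Λ) (N : ℕ) (hN : 0 < N) (v : ℕ → ℝ)
    (hv0 : ∀ i, i < N → 0 ≤ v i) (hv1 : ∀ i, i < N → v i ≤ Λ)
    (hvm : ∀ i, i + 1 < N → v i ≤ v (i + 1)) :
    ∃ y : ℝ, 0 ≤ y ∧ y ≤ Λ ∧
      ∑ i ∈ range N, (ENNReal.ofReal |y - v i|) ^ (-s) ≤ cs s (Λ / N) := by
  have hN' : (0 : ℝ) < N := by exact_mod_cast hN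
  have : NeZero N := ⟨hN.ne'⟩
  set h : ℝ := Λ / N with hh
  have hhpos : 0 < h := div_pos hΛ hN'
  have hNh : N * h = Λ := by rw [hh]; field_simp
  set U : ℕ → ℝ := fun i => v (i % N) + ((i / N : ℕ) : ℝ) * Λ with hU
  have hUper : ∀ i, U (i + N) = U i + Λ := by
    intro i
    simp only [hU]
    rw [Nat.add_mod_right, Nat.add_div_right _ hN]
    push_cast
    ring
  have hUsmall : ∀ i, i < N → U i = v i := by
    intro i hi
    simp only [hU]
    rw [Nat.mod_eq_of_lt hi, Nat.div_eq_of_lt hi]
    simp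
  have hUmono : ∀ i, U i ≤ U (i + 1) := by
    intro i
    have hr : i % N < N := Nat.mod_lt _ hN
    rcases lt_or_ge (i % N + 1) N with hlt | hge
    · have e1 : (i + 1) % N = i % N + 1 := by
        rw [Nat.add_mod]
        rcases Nat.lt_or_ge 1 N with h1 | h1
        · rw [Nat.mod_eq_of_lt h1, Nat.mod_eq_of_lt hlt]
        · have : N = 1 := by omega
          subst this; omega
      have e2 : (i + 1) / N = i / N := by
        rw [Nat.succ_div]
        rw [if_neg]; · simp
        intro hd
        have := Nat.mod_eq_zero_of_dvd hd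
        omega
      simp only [hU, e1, e2]
      have := hvm _ hlt
      linarith
    · have e0 : i % N + 1 = N := by omega
      have e1 : (i + 1) % N = 0 := by
        have h2 : i = N * (i / N) + i % N := (Nat.div_add_mod i N).symm
        have h3 : i + 1 = N * (i / N) + N := by omega
        rw [h3]; simp
      have e2 : (i + 1) / N = i / N + 1 := by
        have h2 : i = N * (i / N) + i % N := (Nat.div_add_mod i N).symm
        have h3 : i + 1 = N * (i / N + 1) := by rw [Nat.mul_add]; omega
        rw [h3]; rw [Nat.mul_div_cancel_left _ hN]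
      simp only [hU, e1, e2]
      have a1 := hv0 0 hN
      have a2 := hv1 _ hr
      push_cast
      linarith
  have hUmono' : Monotone U := monotone_nat_of_le_succ hUmono
  set c : ℝ := (∑ i ∈ range N, (U i - i * h)) / N with hc
  set a : ℕ → ℝ := fun i => c + i * h - U i with ha
  have haper : ∀ i, a (i + N) = a i := by
    intro i
    simp only [ha, hUper]
    push_cast
    rw [← hNh]; ring
  have hasum : ∑ i ∈ range N, a i = 0 := by
    have : ∑ i ∈ range N, a i = N * c - ∑ i ∈ range N, (U i - i * h) := by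
      simp only [ha]
      rw [show (fun i : ℕ => c + (i : ℝ) * h - U i) = fun i : ℕ => c - (U i - i * h) from
        funext fun i => by ring]
      rw [sum_sub_distrib]; simp
    have h2 : (N : ℝ) * c = ∑ i ∈ range N, (U i - i * h) := by
      rw [hc, mul_div_cancel₀ _ hN'.ne']
    rw [this, h2, sub_self]
  set R : ℕ → ℝ := fun m => ∑ i ∈ range m, a i with hR
  have hRadd : ∀ m k, R (k + m) = R k + ∑ i ∈ range m, a (k + i) := by
    intro m k
    simp only [hR]
    rw [sum_range_add]
  have hRper : ∀ m, R (m + N) = R m := by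
    intro m
    rw [hRadd, sum_period a N haper, hasum, add_zero]
  obtain ⟨k, hkN, hk⟩ := Finset.exists_max_image (range N) R ⟨0, mem_range.2 hN⟩
  have hk' : ∀ m, R m ≤ R k := by
    intro m
    have : R m = R (m % N) := by
      have hp : Function.Periodic R N := hRper
      exact (hp.map_mod_nat m).symm
    rw [this]
    exact hk _ (mem_range.2 (Nat.mod_lt _ hN))
  set y' : ℝ := c + ((k : ℝ) + N - 1 / 2) * h with hy'
  set D : ℕ → ℝ := fun i => y' - U (k + i) with hD
  set D' : ℕ → ℝ := fun i => ((N : ℝ) - i - 1 / 2) * h with hD'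
  have hdiff : ∀ i, D' i - D i = - a (k + i) := by
    intro i
    simp only [hD, hD', ha, hy']
    push_cast
    ring
  have hpart : ∀ m, ∑ i ∈ range m, (D' i - D i) = R k - R (k + m) := by
    intro m
    rw [hRadd]
    rw [sum_congr rfl (fun i _ => hdiff i), sum_neg_distrib]
    ring
  have hDanti : ∀ i, D (i + 1) ≤ D i := by
    intro i
    simp only [hD]
    have := hUmono (k + i)
    rw [← add_assoc]
    linarith
  have hDanti' : Antitone D := antitone_nat_of_succ_le hDanti
  have hD'pos : ∀ i, i < N → 0 < D' i ∧ D' i < Λ := by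
    intro i hi
    have hi' : (i : ℝ) + 1 ≤ N := by exact_mod_cast hi
    constructor
    · simp only [hD']
      apply mul_pos _ hhpos
      linarith
    · rw [← hNh]
      simp only [hD']
      have : (0 : ℝ) ≤ i := Nat.cast_nonneg i
      nlinarith
  have hDpos : ∀ i, i < N → 0 < D i ∧ D i < Λ := by
    intro i hi
    constructor
    · have h1 : D (N - 1) ≤ D i := hDanti' (by omega)
      have h2 : 0 < D (N - 1) := by
        have h3 := hdiff (N - 1)
        have h4 : a (k + (N - 1)) = R (k + N) - R (k + (N - 1)) := by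
          have : k + N = (k + (N - 1)) + 1 := by omega
          rw [this]; simp only [hR]; rw [sum_range_succ]; ring
        have h5 := hRper k
        have h6 := hk' (k + (N - 1))
        have h7 := (hD'pos (N - 1) (by omega)).1
        linarith
      linarith
    · have h1 : D i ≤ D 0 := hDanti' (by omega)
      have h2 : D 0 < Λ := by
        have h3 := hdiff 0
        have h4 : a (k + 0) = R (k + 1) - R k := by
          simp only [hR]; rw [sum_range_succ]; simp
        have h6 := hk' (k + 1)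
        have h7 := (hD'pos 0 hN).2
        linarith
      linarith
  have hkar : ∀ m : ℤ, ∑ i ∈ range N, |D i + m * Λ| ^ (-s) ≤ ∑ i ∈ range N, |D' i + m * Λ| ^ (-s) := by
    intro m
    apply karamata hs N D D' hDpos hD'pos (fun i _ => hDanti i)
    · intro m' _
      rw [hpart]
      have := hk' (k + m')
      linarith
    · rw [hpart, hRper]; ring
  have hne : ∀ (m : ℤ) (x : ℝ), 0 < x ∧ x < Λ → x + m * Λ ≠ 0 := by
    intro m x hx h0
    rcases le_or_gt 0 m with hm | hm
    · have hm' : (0 : ℝ) ≤ m := by exact_mod_cast hm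
      have := mul_nonneg hm' hΛ.le
      linarith [hx.1]
    · have hm' : (m : ℝ) ≤ -1 := by exact_mod_cast (by omega : m ≤ -1)
      have := mul_le_mul_of_nonneg_right hm' hΛ.le
      linarith [hx.2]
  have hfin : ∑ i ∈ range N, per s Λ (D i) ≤ ∑ i ∈ range N, per s Λ (D' i) := by
    unfold per
    rw [← Summable.tsum_finsetSum (fun i _ => ENNReal.summable),
      ← Summable.tsum_finsetSum (fun i _ => ENNReal.summable)]
    apply ENNReal.tsum_le_tsum
    intro m
    rw [conv_sum N (fun i => D i + m * Λ) (fun i hi => hne m _ (hDpos i hi)),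
      conv_sum N (fun i => D' i + m * Λ) (fun i hi => hne m _ (hD'pos i hi))]
    exact ENNReal.ofReal_le_ofReal (hkar m)
  have hcs : ∑ i ∈ range N, per s Λ (D' i) = cs s h := by
    unfold per cs
    rw [← Summable.tsum_finsetSum (fun i _ => ENNReal.summable)]
    rw [← Equiv.tsum_eq (Int.divModEquiv N).symm
      (fun j : ℤ => (ENNReal.ofReal |((j : ℝ) + 1 / 2) * h|) ^ (-s)),
      ENNReal.tsum_prod']
    apply tsum_congr
    intro m
    rw [tsum_fintype]
    rw [← sum_range_reflect]
    rw [← Fin.sum_univ_eq_sum_range (fun j => (ENNReal.ofReal |D' (N - 1 - j) + m * Λ|) ^ (-s)) N]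
    apply sum_congr rfl
    intro i _
    congr 3
    simp only [hD', Int.divModEquiv_symm_apply]
    have hi := i.2
    have e : ((N - 1 - (i : ℕ) : ℕ) : ℝ) = (N : ℝ) - 1 - i := by
      rw [Nat.cast_sub (by omega), Nat.cast_sub (by omega)]; simp
    rw [e, ← hNh]
    push_cast
    ring
  set q : ℤ := ⌊y' / Λ⌋ with hq
  refine ⟨y' - q * Λ, ?_, ?_, ?_⟩
  · have := Int.floor_le (y' / Λ)
    rw [le_div_iff₀ hΛ] at this
    linarith
  · have := Int.lt_floor_add_one (y' / Λ)
    rw [div_lt_iff₀ hΛ] at this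
    nlinarith
  · calc ∑ i ∈ range N, (ENNReal.ofReal |y' - q * Λ - v i|) ^ (-s)
        ≤ ∑ i ∈ range N, per s Λ (y' - q * Λ - v i) := sum_le_sum fun i _ => le_per _ _ _
      _ = ∑ i ∈ range N, per s Λ (y' - U i) := by
          apply sum_congr rfl
          intro i hi
          rw [hUsmall i (mem_range.1 hi)]
          have := per_add s Λ (y' - v i) (-q)
          rw [← this]
          congr 1
          push_cast
          ring
      _ = ∑ i ∈ range N, per s Λ (D i) := by
          rw [← sum_period (fun i => per s Λ (y' - U i)) N _ k]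
          intro i
          rw [hUper]
          have := per_add s Λ (y' - U i) (-1)
          rw [← this]
          congr 1
          push_cast
          ring
      _ ≤ ∑ i ∈ range N, per s Λ (D' i) := hfin
      _ = cs s h := hcs

/-- The mass function of `K`. -/
noncomputable def phi (K : Set ℝ) (t : ℝ) : ℝ := (MeasureTheory.volume (K ∩ Set.Iic t)).toReal

theorem phi_fin {K : Set ℝ} (hK : IsCompact K) (t : ℝ) :
    MeasureTheory.volume (K ∩ Set.Iic t) ≠ ⊤ :=
  ((MeasureTheory.measure_mono Set.inter_subset_left).trans_lt hK.measure_lt_top).ne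

theorem phi_mono {K : Set ℝ} (hK : IsCompact K) : Monotone (phi K) := by
  intro a b hab
  unfold phi
  apply ENNReal.toReal_mono (phi_fin hK b)
  exact MeasureTheory.measure_mono (Set.inter_subset_inter_right _ (Set.Iic_subset_Iic.2 hab))

theorem phi_lip {K : Set ℝ} (hK : IsCompact K) {a b : ℝ} (hab : a ≤ b) :
    phi K b - phi K a ≤ b - a := by
  have h1 : K ∩ Set.Iic b ⊆ (K ∩ Set.Iic a) ∪ Set.Ioc a b := by
    rintro x ⟨hx, hxb⟩
    rcases le_or_gt x a with h | h
    · exact Or.inl ⟨hx, h⟩
    · exact Or.inr ⟨h, hxb⟩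
  have h2 := (MeasureTheory.measure_mono (μ := MeasureTheory.volume) h1).trans
    (MeasureTheory.measure_union_le _ _)
  rw [Real.volume_Ioc] at h2
  have h3 : (MeasureTheory.volume (K ∩ Set.Iic b)).toReal ≤
      (MeasureTheory.volume (K ∩ Set.Iic a) + ENNReal.ofReal (b - a)).toReal := by
    apply ENNReal.toReal_mono _ h2
    exact ENNReal.add_ne_top.2 ⟨phi_fin hK a, ENNReal.ofReal_ne_top⟩
  rw [ENNReal.toReal_add (phi_fin hK a) ENNReal.ofReal_ne_top,
    ENNReal.toReal_ofReal (by linarith)] at h3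
  unfold phi
  linarith

theorem phi_abs {K : Set ℝ} (hK : IsCompact K) (a b : ℝ) :
    |phi K a - phi K b| ≤ |a - b| := by
  rcases le_total a b with h | h
  · have h1 := phi_lip hK h
    have h2 := phi_mono hK h
    rw [abs_sub_comm, abs_sub_comm a b, abs_of_nonneg (by linarith), abs_of_nonneg (by linarith)]
    exact h1
  · have h1 := phi_lip hK h
    have h2 := phi_mono hK h
    rw [abs_of_nonneg (by linarith), abs_of_nonneg (by linarith)]
    exact h1

theorem phi_surj {K : Set ℝ} (hK : IsCompact K) (hne : K.Nonempty) (hsub : K ⊆ Set.Icc (0 : ℝ) 1)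
    {c : ℝ} (hc0 : 0 ≤ c) (hc1 : c ≤ (MeasureTheory.volume K).toReal) :
    ∃ y ∈ K, phi K y = c := by
  have hcont : Continuous (phi K) := by
    have : LipschitzWith 1 (phi K) := by
      apply LipschitzWith.of_dist_le_mul
      intro a b
      rw [Real.dist_eq, Real.dist_eq]
      simpa using phi_abs hK a b
    exact this.continuous
  have hm1 : phi K (-1) = 0 := by
    unfold phi
    have : K ∩ Set.Iic (-1) = ∅ := by
      ext x
      simp only [Set.mem_inter_iff, Set.mem_Iic, Set.mem_empty_iff_false, iff_false, not_and]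
      intro hx h
      have := (hsub hx).1
      linarith
    rw [this]; simp
  have h1 : phi K 1 = (MeasureTheory.volume K).toReal := by
    unfold phi
    rw [Set.inter_eq_left.2]
    intro x hx
    exact (hsub hx).2
  have hmem : c ∈ phi K '' Set.Icc (-1) 1 := by
    apply intermediate_value_Icc (by norm_num) hcont.continuousOn
    rw [hm1, h1]
    exact ⟨hc0, hc1⟩
  obtain ⟨t, _, ht⟩ := hmem
  have hKt : IsCompact (K ∩ Set.Iic t) := hK.inter_right isClosed_Iic
  rcases (K ∩ Set.Iic t).eq_empty_or_nonempty with he | hne'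
  · have hc : c = 0 := by
      rw [← ht]; unfold phi; rw [he]; simp
    obtain ⟨y, hy, hymin⟩ := hK.exists_isLeast hne
    refine ⟨y, hy, ?_⟩
    rw [hc]
    unfold phi
    have : K ∩ Set.Iic y = {y} := by
      ext x
      simp only [Set.mem_inter_iff, Set.mem_Iic, Set.mem_singleton_iff]
      constructor
      · rintro ⟨hx, hxy⟩
        exact le_antisymm hxy (hymin hx)
      · rintro rfl; exact ⟨hy, le_rfl⟩
    rw [this]; simp
  · obtain ⟨y, hy, hymax⟩ := hKt.exists_isGreatest hne'
    refine ⟨y, hy.1, ?_⟩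
    rw [← ht]
    unfold phi
    congr 2
    ext x
    simp only [Set.mem_inter_iff, Set.mem_Iic]
    constructor
    · rintro ⟨hx, hxy⟩
      exact ⟨hx, hxy.trans hy.2⟩
    · rintro ⟨hx, hxt⟩
      exact ⟨hx, hymax ⟨hx, hxt⟩⟩

/-- Upper bound for the polarization constant of `K`. -/
theorem upper {K : Set ℝ} (hK : IsCompact K) (hne : K.Nonempty) (hsub : K ⊆ Set.Icc (0 : ℝ) 1)
    (hvol : 0 < MeasureTheory.volume K) {s : ℝ} (hs : 0 < s) (N : ℕ) (hN : 0 < N)
    (x : Fin N → ℝ) :
    ∃ y ∈ K, ∑ j, (ENNReal.ofReal |y - x j|) ^ (-s) ≤ cs s ((MeasureTheory.volume K).toReal / N) := by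
  have hfin : MeasureTheory.volume K ≠ ⊤ := hK.measure_lt_top.ne
  have hΛ : 0 < (MeasureTheory.volume K).toReal := ENNReal.toReal_pos hvol.ne' hfin
  set u : Fin N → ℝ := fun j => phi K (x j) with hu
  set w : Fin N → ℝ := u ∘ Tuple.sort u with hw
  have hwm : Monotone w := Tuple.monotone_sort u
  set v : ℕ → ℝ := fun i => if h : i < N then w ⟨i, h⟩ else 0 with hv
  have hv' : ∀ i (h : i < N), v i = w ⟨i, h⟩ := fun i h => by simp only [hv]; rw [dif_pos h]
  have hph0 : ∀ t, 0 ≤ phi K t := fun t => ENNReal.toReal_nonneg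
  have hph1 : ∀ t, phi K t ≤ (MeasureTheory.volume K).toReal := fun t =>
    ENNReal.toReal_mono hfin (MeasureTheory.measure_mono Set.inter_subset_left)
  obtain ⟨c, hc0, hc1, hc⟩ := circle hs hΛ N hN v
    (fun i hi => by rw [hv' i hi]; exact hph0 _)
    (fun i hi => by rw [hv' i hi]; exact hph1 _)
    (fun i hi => by
      rw [hv' i (by omega), hv' (i + 1) hi]
      apply hwm
      exact Nat.le_succ i)
  obtain ⟨y, hy, hyc⟩ := phi_surj hK hne hsub hc0 hc1
  refine ⟨y, hy, le_trans ?_ hc⟩
  rw [← Fin.sum_univ_eq_sum_range (fun i => (ENNReal.ofReal |c - v i|) ^ (-s)) N]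
  calc ∑ j, (ENNReal.ofReal |y - x j|) ^ (-s) ≤ ∑ j, (ENNReal.ofReal |c - u j|) ^ (-s) := by
        apply sum_le_sum
        intro j _
        rw [ENNReal.rpow_neg, ENNReal.rpow_neg]
        apply ENNReal.inv_le_inv.2
        apply ENNReal.rpow_le_rpow _ hs.le
        apply ENNReal.ofReal_le_ofReal
        rw [← hyc]
        exact phi_abs hK _ _
    _ = ∑ j, (ENNReal.ofReal |c - w j|) ^ (-s) :=
        (Equiv.sum_comp (Tuple.sort u) (fun j => (ENNReal.ofReal |c - u j|) ^ (-s))).symm
    _ ≤ _ := by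
        apply le_of_eq
        apply sum_congr rfl
        intro j _
        rw [hv' j j.2]

end Pool.Agent.Helper92.Pol
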